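import Pool.Agent.N206.HJ.Stm

set_option autoImplicit false

/-!
The bracket of an approximated vector field with an elementary one (statement S_BR of helper206).
-/

namespace Pool.Agent.N221.HJ

open Pool.Agent.N206.HJ MvPowerSeries

theorem t_BR (p : ℕ) [Fact p.Prime] (h1 : S_DET2 p) (h2 : S_TAY p) (h3 : S_PPOW p) : S_BR p := by
  intro u h a D E m n R hu1 hh1 hpm hpn hRn hnm hhX hAp
  have hp2 : 2 ≤ p := (Fact.out : p.Prime).two_le
  have hXE : ∀ i, X a ^ n * E i ∈ M p n := fun i => M_mul_right (Xpow_mem a n)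
  have hXD : ∀ i, X a ^ m * D i ∈ M p m := fun i => M_mul_right (Xpow_mem a m)
  have hhd : ∀ i, h (X i) - X i = X a ^ n * E i := fun i => by rw [hhX i]; ring
  have hhn : ∀ i, h (X i) - X i ∈ M p n := fun i => by rw [hhd i]; exact hXE i
  have hum : ∀ i, u (X i) - X i ∈ M p m := by
    intro i
    have e : u (X i) - X i = (u (X i) - X i - X a ^ m * D i) + X a ^ m * D i := by ring
    rw [e]
    exact Ideal.add_mem _ (M_anti (by omega) (hAp i)) (hXD i)
  have hum1 : u ∈ Ga p (m - 1) := h1.2 u hu1 (m - 1) (fun i => M_anti (by omega) (hum i))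
  have hhn1 : h ∈ Ga p (n - 1) := h1.2 h hh1 (n - 1) (fun i => M_anti (by omega) (hhn i))
  -- Taylor formula for `u`
  have hT : ∀ f ∈ M p 1, u f - f - X a ^ m * vf D f ∈ M p (m + n + R) := by
    intro f hf
    have e1 := h2 u m (by omega) hu1 hum 1 f hf
    have e2 : vf (fun i => u (X i) - X i - X a ^ m * D i) f ∈ M p (m + n + R + (1 - 1)) :=
      vf_mem (D := fun i => u (X i) - X i - X a ^ m * D i) hAp hf
    have e3 : vf (fun i => u (X i) - X i) f
        = vf (fun i => u (X i) - X i - X a ^ m * D i) f + X a ^ m * vf D f := by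
      rw [← vf_smul_left, ← vf_add_left]
      congr 1
      funext i
      ring
    have e4 : u f - f - X a ^ m * vf D f = (u f - f - vf (fun i => u (X i) - X i) f)
        + vf (fun i => u (X i) - X i - X a ^ m * D i) f := by
      rw [e3]; ring
    rw [e4]
    exact Ideal.add_mem _ (M_anti (by omega) e1) (M_anti (by omega) e2)
  -- conjugation by `h`
  have hW : ∀ i, h (u (h⁻¹ (X i))) - X i - X a ^ m * (D i + X a ^ n * br E D i)
      ∈ M p (m + n + R) := by
    intro i
    have hy1 : h⁻¹ (X i : A p) ∈ M p 1 := Ga_pres ((Ga p 1).inv_mem hh1) (X_mem i)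
    have hy2 : h⁻¹ (X i : A p) - X i + X a ^ n * E i ∈ M p (2 * n - 1) := by
      have e0 : (X i : A p) = h⁻¹ (X i) + h⁻¹ (X a ^ n * E i) := by
        rw [← map_add, ← hhX i, ap_inv]
      have e1 := Ga_sub ((Ga p (n - 1)).inv_mem hhn1) (hXE i)
      have e2 : h⁻¹ (X i : A p) - X i + X a ^ n * E i
          = -(h⁻¹ (X a ^ n * E i) - X a ^ n * E i) := by
        linear_combination -e0
      rw [e2]
      exact Submodule.neg_mem _ (M_anti (by omega) e1)
    have hv : vf D (h⁻¹ (X i)) - D i + X a ^ n * vf D (E i) ∈ M p (2 * n - 2) := by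
      have e1 : vf D (h⁻¹ (X i)) - D i + X a ^ n * vf D (E i)
          = vf D (h⁻¹ (X i) - X i + X a ^ n * E i) := by
        rw [vf_add, vf_sub, vf_X, vf_Xpow_mul D a n hpn]
      rw [e1]
      exact M_anti (by omega) (vf_mem (s := 0) (fun i => M_zero (D i)) hy2)
    have hv2 : h (vf D (h⁻¹ (X i))) - h (D i) + h (X a ^ n * vf D (E i)) ∈ M p (2 * n - 2) := by
      rw [← map_sub, ← map_add]
      exact Ga_pres hh1 hv
    have hv3 : h (D i) - D i - X a ^ n * vf E (D i) ∈ M p (2 * n - 2) := by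
      have e1 := h2 h n (by omega) hh1 hhn 0 (D i) (M_zero _)
      have e2 : (fun i => h (X i) - X i) = fun i => X a ^ n * E i := by
        funext i
        exact hhd i
      rw [e2, vf_smul_left] at e1
      exact M_anti (by omega) e1
    have hv4 : h (X a ^ n * vf D (E i)) - X a ^ n * vf D (E i) ∈ M p (2 * n - 2) :=
      M_anti (by omega) (Ga_sub hhn1 (M_mul_right (g := vf D (E i)) (Xpow_mem a n)))
    have hQ : h (vf D (h⁻¹ (X i))) - D i - X a ^ n * br E D i ∈ M p (2 * n - 2) := by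
      have e : h (vf D (h⁻¹ (X i))) - D i - X a ^ n * br E D i
          = (h (vf D (h⁻¹ (X i))) - h (D i) + h (X a ^ n * vf D (E i)))
            + (h (D i) - D i - X a ^ n * vf E (D i))
            - (h (X a ^ n * vf D (E i)) - X a ^ n * vf D (E i)) := by
        simp only [br]; ring
      rw [e]
      exact Ideal.sub_mem _ (Ideal.add_mem _ hv2 hv3) hv4
    have hP : h (X a) ^ m - X a ^ m ∈ M p (m + n + R) := by
      have e := h3 (X a ^ n * E a) a n m 1 (hXE a) (by omega) (by rw [pow_one]; exact hpm)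
      rw [← hhX a, pow_one] at e
      refine M_anti ?_ e
      have : 2 * (n - 1) ≤ p * (n - 1) := Nat.mul_le_mul_right _ hp2
      omega
    have hU : h (u (h⁻¹ (X i))) - X i - h (X a) ^ m * h (vf D (h⁻¹ (X i))) ∈ M p (m + n + R) := by
      have e := Ga_pres hh1 (hT _ hy1)
      rw [map_sub, map_sub, map_mul, map_pow, inv_ap] at e
      exact e
    have e : h (u (h⁻¹ (X i))) - X i - X a ^ m * (D i + X a ^ n * br E D i)
        = (h (u (h⁻¹ (X i))) - X i - h (X a) ^ m * h (vf D (h⁻¹ (X i))))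
          + (h (X a) ^ m - X a ^ m) * h (vf D (h⁻¹ (X i)))
          + X a ^ m * (h (vf D (h⁻¹ (X i))) - D i - X a ^ n * br E D i) := by ring
    rw [e]
    exact Ideal.add_mem _ (Ideal.add_mem _ hU (M_mul_right hP))
      (M_anti (by omega) (M_mul (Xpow_mem a m) hQ))
  -- the conjugate lies in `Ga (m - 1)`
  have hw1 : h * u * h⁻¹ ∈ Ga p 1 :=
    (Ga p 1).mul_mem ((Ga p 1).mul_mem hh1 hu1) ((Ga p 1).inv_mem hh1)
  have hwX : ∀ i, (h * u * h⁻¹) (X i) - X i ∈ M p m := by
    intro i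
    have e : (h * u * h⁻¹) (X i) - X i
        = (h (u (h⁻¹ (X i))) - X i - X a ^ m * (D i + X a ^ n * br E D i))
          + X a ^ m * (D i + X a ^ n * br E D i) := by
      rw [mul_ap, mul_ap]; ring
    rw [e]
    exact Ideal.add_mem _ (M_anti (by omega) (hW i)) (M_mul_right (Xpow_mem a m))
  have hwm : h * u * h⁻¹ ∈ Ga p (m - 1) := h1.2 _ hw1 (m - 1) (fun i => M_anti (by omega) (hwX i))
  intro i
  have hz : u⁻¹ (X i) - X i + X a ^ m * D i ∈ M p (m + n + R) := by
    have e0 : (X i : A p) = u⁻¹ (X i) + u⁻¹ (X a ^ m * D i)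
        + u⁻¹ (u (X i) - X i - X a ^ m * D i) := by
      rw [← map_add, ← map_add]
      have : (X i : A p) + X a ^ m * D i + (u (X i) - X i - X a ^ m * D i) = u (X i) := by ring
      rw [this, ap_inv]
    have e1 := Ga_sub ((Ga p (m - 1)).inv_mem hum1) (hXD i)
    have e2 : u⁻¹ (u (X i) - X i - X a ^ m * D i) ∈ M p (m + n + R) :=
      Ga_pres ((Ga p 1).inv_mem hu1) (hAp i)
    have e3 : u⁻¹ (X i) - X i + X a ^ m * D i
        = -(u⁻¹ (X a ^ m * D i) - X a ^ m * D i) - u⁻¹ (u (X i) - X i - X a ^ m * D i) := by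
      linear_combination -e0
    rw [e3]
    exact Ideal.sub_mem _ (Submodule.neg_mem _ (M_anti (by omega) e1)) e2
  have hz2 := Ga_pres hw1 hz
  rw [map_add, map_sub] at hz2
  have hz3 := Ga_sub hwm (hXD i)
  have hz4 : (h * u * h⁻¹) (X i) - X i - X a ^ m * (D i + X a ^ n * br E D i)
      ∈ M p (m + n + R) := hW i
  have e : (h * u * h⁻¹ * u⁻¹) (X i) - X i - X a ^ (m + n) * br E D i
      = ((h * u * h⁻¹) (u⁻¹ (X i)) - (h * u * h⁻¹) (X i) + (h * u * h⁻¹) (X a ^ m * D i))
        + ((h * u * h⁻¹) (X i) - X i - X a ^ m * (D i + X a ^ n * br E D i))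
        - ((h * u * h⁻¹) (X a ^ m * D i) - X a ^ m * D i) := by
    rw [mul_ap (h * u * h⁻¹) u⁻¹, pow_add]; ring
  rw [e]
  exact Ideal.sub_mem _ (Ideal.add_mem _ hz2 hz4) (M_anti (by omega) hz3)

end Pool.Agent.N221.HJ
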